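import Mathlib

set_option autoImplicit false
set_option linter.unusedSectionVars false
open Finset Pointwise

namespace Pool.Agent.H.MP_4dc1c3_nt

variable {L : Type*} [Field L] [CharZero L]

def A (L : Type*) [Field L] (d : ℕ) : AddSubgroup L := AddSubgroup.closure {w | w ^ d = 1}

structure Cyc (n : ℕ) (T : L →+ ℚ) (c : L →+* L) : Prop where
  n0 : n ≠ 0
  ev : (-1 : L) ^ n = 1
  aut : ∀ d, d ∣ n → ∀ k, Nat.Coprime k d →
    ∃ σ : L →+* L, (∀ x, T (σ x) = T x) ∧ ∀ w, w ^ d = 1 → σ w = w ^ k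
  prim : ∀ d, d ∣ n → ∃ ξ : L, IsPrimitiveRoot ξ d
  conj : ∀ w, w ^ n = 1 → c w = w⁻¹
  cc : ∀ x, c (c x) = x
  Tc : ∀ x, T (c x) = T x
  one : T 1 = 1
  pos : ∀ x, 0 ≤ T (x * c x)
  big : ∀ x ∈ A L n, x ≠ 0 → 1 ≤ T (x * c x)

variable {n : ℕ} {T : L →+ ℚ} {c : L →+* L}

lemma up {d e : ℕ} (h : d ∣ e) {w : L} (hw : w ^ d = 1) : w ^ e = 1 := by
  obtain ⟨k, rfl⟩ := h
  rw [pow_mul, hw, one_pow]

lemma A_mono {d e : ℕ} (h : d ∣ e) : A L d ≤ A L e := AddSubgroup.closure_mono fun _ hw => up h hw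

lemma A_mul {d : ℕ} {x y : L} (hx : x ∈ A L d) (hy : y ∈ A L d) : x * y ∈ A L d := by
  induction hx, hy using AddSubgroup.closure_induction₂ with
  | mem x y hx hy => exact AddSubgroup.subset_closure (by simp_all [mul_pow])
  | zero_left => simp
  | zero_right => simp
  | add_left x y z _ _ _ h1 h2 => rw [add_mul]; exact add_mem h1 h2
  | add_right x y z _ _ _ h1 h2 => rw [mul_add]; exact add_mem h1 h2
  | neg_left x y _ _ h => rw [neg_mul]; exact neg_mem h
  | neg_right x y _ _ h => rw [mul_neg]; exact neg_mem h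

lemma A_c (h : Cyc n T c) {d : ℕ} (hd : d ∣ n) {x : L} (hx : x ∈ A L d) : c x ∈ A L d := by
  induction hx using AddSubgroup.closure_induction with
  | mem x hx =>
    refine AddSubgroup.subset_closure ?_
    change _ ^ _ = _
    rw [h.conj x (up hd hx), inv_pow, hx, inv_one]
  | zero => simp
  | add x y _ _ h1 h2 => rw [map_add]; exact add_mem h1 h2
  | neg x _ h1 => rw [map_neg]; exact neg_mem h1

lemma A_fix {d : ℕ} (σ : L →+* L) (hσ : ∀ w, w ^ d = 1 → σ w = w) {x : L} (hx : x ∈ A L d) :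
    σ x = x := by
  induction hx using AddSubgroup.closure_induction with
  | mem x hx => exact hσ x hx
  | zero => simp
  | add x y _ _ h1 h2 => rw [map_add, h1, h2]
  | neg x _ h1 => rw [map_neg, h1]

lemma M_root (h : Cyc n T c) (x : L) {w : L} (hw : w ^ n = 1) :
    T (x * w * c (x * w)) = T (x * c x) := by
  have : w ≠ 0 := fun e => by simp [e, h.n0] at hw
  rw [map_mul c, h.conj w hw]; congr 1; field_simp

lemma T_ss (T : L →+ ℚ) (c : L →+* L) {ι : Type*} (s : Finset ι) (y : ι → L) :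
    T ((∑ a ∈ s, y a) * c (∑ a ∈ s, y a)) = ∑ a ∈ s, ∑ b ∈ s, T (y a * c (y b)) := by
  simp only [map_sum c, sum_mul_sum, map_sum T]

lemma M_id (h : Cyc n T c) {ι : Type*} (s : Finset ι) (y : ι → L) :
    ∑ a ∈ s, ∑ b ∈ s, T ((y a - y b) * c (y a - y b)) =
      2 * s.card * ∑ a ∈ s, T (y a * c (y a)) - 2 * T ((∑ a ∈ s, y a) * c (∑ a ∈ s, y a)) := by
  have e : ∀ a b, T ((y a - y b) * c (y a - y b)) =
      T (y a * c (y a)) + T (y b * c (y b)) - 2 * T (y a * c (y b)) := fun a b => by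
    have := h.Tc (y a * c (y b))
    rw [map_mul c, h.cc] at this
    rw [two_mul]
    nth_rewrite 1 [← this]
    rw [← map_add, ← map_add, ← map_sub, map_sub c]; congr 1; ring
  simp only [e, sum_sub_distrib, sum_add_distrib, sum_const, nsmul_eq_mul, T_ss, ← mul_sum]
  ring

lemma M_cs (h : Cyc n T c) {ι : Type*} (s : Finset ι) (y : ι → L) :
    T ((∑ a ∈ s, y a) * c (∑ a ∈ s, y a)) ≤ s.card * ∑ a ∈ s, T (y a * c (y a)) := by
  have h1 := M_id h s y
  have h2 : 0 ≤ ∑ a ∈ s, ∑ b ∈ s, T ((y a - y b) * c (y a - y b)) :=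
    sum_nonneg fun _ _ => sum_nonneg fun _ _ => h.pos _
  linarith

lemma M_dec (h : Cyc n T c) {d p : ℕ} (hd : d ∣ n) {ξ : L} (hξ : ξ ^ n = 1) (κ : ℚ)
    (hκ : ∀ y ∈ A L d, ∀ a < p, ∀ b < p, a ≠ b → T (y * (ξ ^ a * (ξ ^ b)⁻¹)) = κ * T y)
    (x : ℕ → L) (hx : ∀ a, x a ∈ A L d) :
    T ((∑ a ∈ range p, x a * ξ ^ a) * c (∑ a ∈ range p, x a * ξ ^ a)) =
      (1 - κ) * ∑ a ∈ range p, T (x a * c (x a)) +
        κ * T ((∑ a ∈ range p, x a) * c (∑ a ∈ range p, x a)) := by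
  rw [T_ss, T_ss, mul_sum, mul_sum, ← sum_add_distrib]
  refine sum_congr rfl fun a ha => ?_
  have h0 : ∀ b, (ξ ^ b) ^ n = 1 := fun b => by rw [← pow_mul, mul_comm, pow_mul, hξ, one_pow]
  rw [← add_sum_erase _ _ ha, ← add_sum_erase _ _ ha, M_root h _ (h0 a),
    sum_congr rfl fun b hb => show _ = κ * T (x a * c (x b)) by
      rw [← hκ _ (A_mul (hx a) (A_c h hd (hx b))) a (mem_range.1 ha) b
        (mem_range.1 (mem_erase.1 hb).2) (mem_erase.1 hb).1.symm, map_mul c, h.conj _ (h0 b)]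
      congr 1; ring, ← mul_sum]
  ring

lemma T_nat (T : L →+ ℚ) (k : ℕ) (x : L) : T (k * x) = k * T x := by
  rw [← nsmul_eq_mul, map_nsmul, nsmul_eq_mul]

lemma dec (h : Cyc n T c) {d p : ℕ} (hp : p.Prime) (hd : p * d ∣ n) : ∃ ξ : L, ξ ^ n = 1 ∧
    (∀ w : L, w ^ (p * d) = 1 → ∃ a < p, ∃ u, u ^ d = 1 ∧ w = u * ξ ^ a) ∧
    (p ∣ d → ∀ x : ℕ → L, (∀ a, x a ∈ A L d) →
      T ((∑ a ∈ range p, x a * ξ ^ a) * c (∑ a ∈ range p, x a * ξ ^ a)) =
        ∑ a ∈ range p, T (x a * c (x a))) ∧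
    (¬ p ∣ d → ∑ a ∈ range p, ξ ^ a = 0 ∧ ∀ x : ℕ → L, (∀ a, x a ∈ A L d) →
      ∑ a ∈ range p, ∑ b ∈ range p, T ((x a - x b) * c (x a - x b)) = 2 * (p - 1) *
        T ((∑ a ∈ range p, x a * ξ ^ a) * c (∑ a ∈ range p, x a * ξ ^ a))) := by
  have hd' : d ∣ n := (dvd_mul_left d p).trans hd
  have d0 : d ≠ 0 := by rintro rfl; exact h.n0 (by simpa using hd)
  have : NeZero (p * d) := ⟨mul_ne_zero hp.ne_zero d0⟩
  have : NeZero p := ⟨hp.ne_zero⟩
  have hm : ∀ {ω : L}, IsPrimitiveRoot ω p → ∀ a < p, ∀ b < p, a ≠ b →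
      IsPrimitiveRoot (ω ^ a * (ω ^ b)⁻¹) p := fun {ω} hω a ha b hb hab => by
    have h0 : ω ≠ 0 := hω.ne_zero hp.ne_zero
    have : Fact p.Prime := ⟨hp⟩
    rw [IsPrimitiveRoot.iff_orderOf]
    refine orderOf_eq_prime ?_ fun e => hab (hω.pow_inj ha hb ?_)
    · rw [mul_pow, inv_pow, ← pow_mul, ← pow_mul, mul_comm a, mul_comm b, pow_mul, pow_mul,
        hω.pow_eq_one]; simp
    · rwa [mul_inv_eq_one₀ (pow_ne_zero _ h0)] at e
  by_cases hpd : p ∣ d
  · obtain ⟨ξ, hξ⟩ := h.prim _ hd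
    have hn := up hd hξ.pow_eq_one
    refine ⟨ξ, hn, fun w hw => ?_, fun _ x hx => ?_, fun h0 => absurd hpd h0⟩
    · obtain ⟨i, -, rfl⟩ := hξ.eq_pow_of_pow_eq_one hw
      refine ⟨i % p, Nat.mod_lt _ hp.pos, ξ ^ (p * (i / p)), ?_, by rw [← pow_add, Nat.div_add_mod]⟩
      rw [← pow_mul, show p * (i / p) * d = p * d * (i / p) by ring, pow_mul, hξ.pow_eq_one, one_pow]
    · rw [M_dec h hd' hn 0 ?_ x hx]; · simp
      intro y hy a ha b hb hab
      obtain ⟨σ, h1, h2⟩ := h.aut _ hd (1 + d) (by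
        refine Nat.Coprime.mul_right ?_ (by simp)
        obtain ⟨e, rfl⟩ := hpd
        simp)
      have hω : IsPrimitiveRoot (ξ ^ d) p := hξ.pow (NeZero.pos _) (mul_comm _ _)
      have hη := hm hω a ha b hb hab
      set η := (ξ ^ d) ^ a * ((ξ ^ d) ^ b)⁻¹
      have h3 : ∀ w : L, w ^ d = 1 → σ w = w := fun w hw => by
        rw [h2 w (up (dvd_mul_left d p) hw), pow_add, hw, pow_one, mul_one]
      have h4 : σ (ξ ^ a * (ξ ^ b)⁻¹) = ξ ^ a * (ξ ^ b)⁻¹ * η := by
        rw [map_mul, map_inv₀, map_pow, map_pow, h2 ξ hξ.pow_eq_one]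
        simp only [η, pow_add, pow_one, mul_pow, mul_inv]; ring
      have h5 : ∀ j, T (y * (ξ ^ a * (ξ ^ b)⁻¹) * η ^ j) = T (y * (ξ ^ a * (ξ ^ b)⁻¹)) := by
        intro j
        induction j with
        | zero => simp
        | succ j ih =>
          rw [← ih, ← h1 (y * _ * η ^ j), map_mul σ, map_mul σ, h4, A_fix σ h3 hy, map_pow,
            h3 η (up hpd hη.pow_eq_one)]
          congr 1; ring
      have h6 := sum_congr (rfl : range p = range p) fun j _ => h5 j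
      rw [← map_sum, ← mul_sum, hη.geom_sum_eq_zero hp.one_lt, mul_zero, map_zero, sum_const,
        card_range, nsmul_eq_mul] at h6
      simpa [hp.ne_zero] using h6
  · obtain ⟨ω, hω⟩ := h.prim _ ((dvd_mul_right p d).trans hd)
    have hn := up ((dvd_mul_right p d).trans hd) hω.pow_eq_one
    have hc : Nat.Coprime p d := (Nat.Prime.coprime_iff_not_dvd hp).2 hpd
    refine ⟨ω, hn, fun w hw => ?_, fun h0 => absurd h0 hpd,
      fun _ => ⟨hω.geom_sum_eq_zero hp.one_lt, fun x hx => ?_⟩⟩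
    · obtain ⟨k, k1, k2⟩ := Nat.chineseRemainder hc 1 0
      obtain ⟨k', k3, k4⟩ := Nat.chineseRemainder hc 0 1
      obtain ⟨q, rfl⟩ := (Nat.modEq_zero_iff_dvd.1 k2)
      obtain ⟨q', rfl⟩ := (Nat.modEq_zero_iff_dvd.1 k3)
      obtain ⟨a, ha, e⟩ := hω.eq_pow_of_pow_eq_one (ξ := w ^ (d * q)) (by
        rw [← pow_mul, show d * q * p = p * d * q by ring, pow_mul, hw, one_pow])
      refine ⟨a, ha, w ^ (p * q'), by
        rw [← pow_mul, show p * q' * d = p * d * q' by ring, pow_mul, hw, one_pow], ?_⟩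
      rw [e, ← pow_add]
      have : p * q' + d * q ≡ 1 [MOD p * d] := (Nat.modEq_and_modEq_iff_modEq_mul hc).1
        ⟨by simpa using k3.add k1, by simpa using k4.add k2⟩
      rw [pow_eq_pow_of_modEq this hw, pow_one]
    · have hp1 : (p : ℚ) - 1 ≠ 0 := by
        have : (1 : ℚ) < p := by exact_mod_cast hp.one_lt
        linarith
      rw [M_id h, M_dec h hd' hn (-1 / (p - 1)) ?_ x hx, card_range]
      · field_simp; ring
      intro y hy a ha b hb hab
      have hη := hm hω a ha b hb hab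
      set η := ω ^ a * (ω ^ b)⁻¹
      have h5 : ∀ j ∈ (range p).erase 0, T (y * η ^ j) = T (y * η) := by
        intro j hj
        obtain ⟨j0, jp⟩ := mem_erase.1 hj
        obtain ⟨k, k1, k2⟩ := Nat.chineseRemainder hc j 1
        obtain ⟨σ, h1, h2⟩ := h.aut _ hd k (Nat.Coprime.mul_right
          (by rw [Nat.Coprime, k1.gcd_eq]
              exact (Nat.coprime_of_lt_prime j0 (mem_range.1 jp) hp).symm)
          (by rw [Nat.Coprime, k2.gcd_eq]; simp))
        rw [← h1 (y * η), map_mul σ, A_fix σ (fun w hw => by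
          rw [h2 w (up (dvd_mul_left d p) hw), pow_eq_pow_of_modEq k2 hw, pow_one]) hy,
          h2 η (up (dvd_mul_right p d) hη.pow_eq_one), pow_eq_pow_of_modEq k1 hη.pow_eq_one]
      have h6 : ∑ j ∈ range p, T (y * η ^ j) = 0 := by
        rw [← map_sum, ← mul_sum, hη.geom_sum_eq_zero hp.one_lt, mul_zero, map_zero]
      rw [← add_sum_erase _ _ (mem_range.2 hp.pos), sum_congr rfl h5, sum_const,
        card_erase_of_mem (mem_range.2 hp.pos), card_range, nsmul_eq_mul, Nat.cast_pred hp.pos,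
        pow_zero, mul_one] at h6
      field_simp
      linarith

lemma split {d p : ℕ} {ξ : L}
    (h : ∀ w : L, w ^ (p * d) = 1 → ∃ a < p, ∃ u, u ^ d = 1 ∧ w = u * ξ ^ a) {x : L}
    (hx : x ∈ A L (p * d)) : ∃ y : ℕ → L, (∀ a, y a ∈ A L d) ∧ x = ∑ a ∈ range p, y a * ξ ^ a := by
  induction hx using AddSubgroup.closure_induction with
  | mem w hw =>
    obtain ⟨a, ha, u, hu, rfl⟩ := h w hw
    refine ⟨fun b => if b = a then u else 0, fun b => ?_, by simp [ha]⟩
    dsimp only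
    split_ifs
    exacts [AddSubgroup.subset_closure hu, zero_mem _]
  | zero => exact ⟨0, fun _ => zero_mem _, by simp⟩
  | add x y _ _ h1 h2 =>
    obtain ⟨f, f1, rfl⟩ := h1
    obtain ⟨g, g1, rfl⟩ := h2
    exact ⟨f + g, fun a => add_mem (f1 a) (g1 a), by simp [add_mul, sum_add_distrib]⟩
  | neg x _ h1 =>
    obtain ⟨f, f1, rfl⟩ := h1
    exact ⟨-f, fun a => neg_mem (f1 a), by simp⟩

lemma dich {d P : ℕ} (h : ¬ d ∣ P.factorial) :
    ∃ p e, p.Prime ∧ d = p * e ∧ (p ∣ e ∨ P < p) := by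
  by_contra hc
  push Not at hc
  have h1 : Squarefree d := Nat.squarefree_iff_prime_squarefree.2 fun p hp ⟨e, he⟩ =>
    (hc p (p * e) hp (by rw [he, mul_assoc])).1 (dvd_mul_right _ _)
  apply h
  rw [← Nat.prod_primeFactors_of_squarefree h1]
  refine Finset.prod_primes_dvd _ (fun p hp => (Nat.prime_of_mem_primeFactors hp).prime) fun p hp => ?_
  obtain ⟨e, he⟩ := Nat.dvd_of_mem_primeFactors hp
  exact Nat.dvd_factorial (Nat.prime_of_mem_primeFactors hp).pos
    (hc p e (Nat.prime_of_mem_primeFactors hp) he).2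

lemma M_zero (h : Cyc n T c) {x : L} (hx : x ∈ A L n) (h0 : T (x * c x) < 1) : x = 0 :=
  by_contra fun e => absurd (h.big x hx e) (not_le.2 h0)

theorem mann (h : Cyc n T c) {W : Type*} (R : ℕ) (e : W → ℤ) (w : W → L) (v : L) [DecidableEq L]
    (d : ℕ) : d ∣ n → ∀ s : Finset W, s.card ≤ R → ∀ ρ : L, ρ ≠ 0 →
    (∀ τ ∈ s, ∃ u, u ^ d = 1 ∧ w τ = ρ * u) → ∑ τ ∈ s, e τ * w τ = 0 →
    ∑ τ ∈ s.filter fun τ => w τ ^ R.factorial = v, e τ * w τ = 0 := by
  induction d using Nat.strong_induction_on with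
  | _ d ih =>
  intro hd s hs ρ hρ hw h0
  by_cases hR : d ∣ R.factorial
  · by_cases hv : ρ ^ R.factorial = v
    · rwa [filter_true_of_mem fun τ hτ => ?_]
      obtain ⟨u, hu, e⟩ := hw τ hτ
      rw [e, mul_pow, up hR hu, mul_one, hv]
    · rw [filter_false_of_mem fun τ hτ => ?_, sum_empty]
      obtain ⟨u, hu, e⟩ := hw τ hτ
      rwa [e, mul_pow, up hR hu, mul_one]
  obtain ⟨p, d', hp, rfl, hc⟩ := dich hR
  have d0 : d' ≠ 0 := by rintro rfl; exact h.n0 (by simpa using hd)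
  have hd' : d' ∣ n := (dvd_mul_left d' p).trans hd
  obtain ⟨ξ, x1, x2, x3, x4⟩ := dec h hp hd
  have x0 : ξ ≠ 0 := fun e => by simp [e, h.n0] at x1
  have : ∀ τ ∈ s, ∃ a < p, ∃ u, u ^ d' = 1 ∧ w τ = ρ * ξ ^ a * u := fun τ hτ => by
    obtain ⟨u, hu, e⟩ := hw τ hτ
    obtain ⟨a, ha, u', hu', e'⟩ := x2 u hu
    exact ⟨a, ha, u', hu', by rw [e, e']; ring⟩
  choose! a ha u hu hwu using this
  have hmap : ∀ τ ∈ s, a τ ∈ range p := fun τ hτ => mem_range.2 (ha τ hτ)
  let x : ℕ → L := fun b => ∑ τ ∈ s.filter fun τ => a τ = b, e τ * u τ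
  have hx : ∀ b, x b ∈ A L d' := fun b => sum_mem fun τ hτ => by
    rw [← zsmul_eq_mul]
    exact zsmul_mem (show u τ ∈ A L d' from AddSubgroup.subset_closure (hu τ (mem_filter.1 hτ).1)) _
  have h1 : ∀ b, ∑ τ ∈ s.filter fun τ => a τ = b, e τ * w τ = ρ * (x b * ξ ^ b) := fun b => by
    simp only [x, sum_mul, mul_sum]
    refine sum_congr rfl fun τ hτ => ?_
    rw [hwu τ (mem_filter.1 hτ).1, (mem_filter.1 hτ).2]; ring
  have h2 : ∑ b ∈ range p, x b * ξ ^ b = 0 := by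
    rw [← sum_fiberwise_of_maps_to hmap, sum_congr rfl fun b _ => h1 b, ← mul_sum] at h0
    exact (mul_eq_zero.1 h0).resolve_left hρ
  have h3 : ∀ b ∈ range p, x b = 0 := by
    by_cases hpd : p ∣ d'
    · have := x3 hpd x hx
      rw [h2, zero_mul, map_zero, eq_comm, sum_eq_zero_iff_of_nonneg fun _ _ => h.pos _] at this
      exact fun b hb => M_zero h (A_mono hd' (hx b)) (by rw [this b hb]; norm_num)
    · have := (x4 hpd).2 x hx
      rw [h2, zero_mul, map_zero, mul_zero,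
        sum_eq_zero_iff_of_nonneg fun _ _ => sum_nonneg fun _ _ => h.pos _] at this
      obtain ⟨b0, b1, b2⟩ := exists_mem_notMem_of_card_lt_card (s := s.image a) (t := range p)
        (by rw [card_range]; exact (card_image_le.trans hs).trans_lt (hc.resolve_left hpd))
      have b3 : x b0 = 0 := sum_eq_zero fun τ hτ =>
        absurd (mem_image.2 ⟨τ, (mem_filter.1 hτ).1, (mem_filter.1 hτ).2⟩) b2
      intro b hb
      have := (sum_eq_zero_iff_of_nonneg fun _ _ => h.pos _).1 (this b hb) b0 b1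
      rw [b3, sub_zero] at this
      exact M_zero h (A_mono hd' (hx b)) (by rw [this]; norm_num)
  rw [← sum_fiberwise_of_maps_to fun τ hτ => hmap τ (mem_filter.1 hτ).1]
  refine sum_eq_zero fun b hb => ?_
  rw [filter_comm]
  refine ih d' (lt_mul_of_one_lt_left (Nat.pos_of_ne_zero d0) hp.one_lt) hd' _
    ((card_filter_le _ _).trans hs) (ρ * ξ ^ b) (mul_ne_zero hρ (pow_ne_zero _ x0)) (fun τ hτ => ?_)
    (by rw [h1, h3 b hb]; simp)
  exact ⟨u τ, hu τ (mem_filter.1 hτ).1, by rw [hwu τ (mem_filter.1 hτ).1, (mem_filter.1 hτ).2]⟩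

def Sm (n l : ℕ) (x : L) : Prop := x ∈ l • insert (0 : L) {w | w ^ n = 1}

lemma Sm.mono {l l' : ℕ} {x : L} (h : Sm n l x) (hl : l ≤ l') : Sm n l' x :=
  Set.nsmul_subset_nsmul_right (Set.mem_insert _ _) hl h

lemma Sm.zero (l : ℕ) : Sm n l (0 : L) := Set.zero_mem_nsmul (Set.mem_insert _ _)

lemma Sm.add {l l' : ℕ} {x y : L} (h : Sm n l x) (h' : Sm n l' y) : Sm n (l + l') (x + y) := by
  unfold Sm; rw [add_nsmul]; exact Set.add_mem_add h h'

lemma Sm.mul {l : ℕ} {x w : L} (h : Sm n l x) (hw : w ^ n = 1) : Sm n l (x * w) := by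
  induction l generalizing x with
  | zero =>
    obtain rfl : x = 0 := by simpa [Sm] using h
    simpa using Sm.zero 0
  | succ l ih =>
    unfold Sm at h ⊢
    rw [succ_nsmul] at h ⊢
    obtain ⟨a, ha, b, hb, rfl⟩ := h
    refine ⟨a * w, ih ha, b * w, ?_, by simp [add_mul]⟩
    rcases hb with rfl | hb
    · simp
    · exact Or.inr (by simp_all [mul_pow])

lemma Sm.sum {ι : Type*} (s : Finset ι) {l : ℕ} {x : ι → L} (h : ∀ a ∈ s, Sm n l (x a)) :
    Sm n (s.card * l) (∑ a ∈ s, x a) := by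
  classical
  induction s using Finset.induction_on with
  | empty => simpa using Sm.zero 0
  | insert a s ha ih =>
    rw [sum_insert ha, card_insert_of_notMem ha, add_mul, one_mul, add_comm _ l]
    exact (h a (mem_insert_self _ _)).add (ih fun b hb => h b (mem_insert_of_mem hb))

lemma Sm.nat (k : ℕ) : Sm n k (k : L) := by
  have := Sm.sum (n := n) (range k) (l := 1) (x := fun _ => (1 : L)) fun _ _ => by simp [Sm]
  simpa using this

lemma Sm.out {l : ℕ} {x : L} (h : Sm n l x) : ∃ (ε : Fin l → ℤ) (η : Fin l → L),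
    (∀ r, η r ^ n = 1) ∧ x = ∑ r, ε r * η r := by
  induction l generalizing x with
  | zero => exact ⟨0, 0, fun r => r.elim0, by simpa [Sm] using h⟩
  | succ l ih =>
    unfold Sm at h
    rw [succ_nsmul'] at h
    obtain ⟨b, hb, a, ha, rfl⟩ := h
    obtain ⟨ε, η, h1, rfl⟩ := ih ha
    rcases hb with rfl | hb
    · exact ⟨Fin.cons 0 ε, Fin.cons 1 η, fun r => Fin.cases (by simp) h1 r, by
        simp [Fin.sum_univ_succ]⟩
    · exact ⟨Fin.cons 1 ε, Fin.cons b η, fun r => Fin.cases hb h1 r, by simp [Fin.sum_univ_succ]⟩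

lemma dec2 (h : Cyc n T c) {d p : ℕ} (hp : p.Prime) (hd : p * d ∣ n) {x : L} (hx : x ∈ A L (p * d)) :
    ∃ ξ : L, ξ ^ n = 1 ∧ ∃ y : ℕ → L, (∀ a, y a ∈ A L d) ∧ x = ∑ a ∈ range p, y a * ξ ^ a ∧
      ∑ a ∈ range p, T (y a * c (y a)) ≤ 2 * T (x * c x) ∧
      ∀ k : ℕ, (p ∣ d ∨ (k + 1) * k < p) → 2 * T (x * c x) ≤ k →
        2 * ∑ a ∈ range p, T (y a * c (y a)) ≤ k + 1 := by
  classical
  obtain ⟨ξ, x1, x2, x3, x4⟩ := dec h hp hd
  obtain ⟨y, hy, e⟩ := split x2 hx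
  have h0 := h.pos x
  by_cases hpd : p ∣ d
  · have := x3 hpd y hy
    rw [← e] at this
    exact ⟨ξ, x1, y, hy, e, by linarith, fun k _ hk => by linarith⟩
  obtain ⟨x5, x6⟩ := x4 hpd
  obtain ⟨a0, -, hmin⟩ := exists_min_image (range p)
    (fun b => ∑ a ∈ range p, T ((y a - y b) * c (y a - y b))) ⟨0, mem_range.2 hp.pos⟩
  have hz : ∀ a, y a - y a0 ∈ A L d := fun a => sub_mem (hy a) (hy a0)
  have e' : x = ∑ a ∈ range p, (y a - y a0) * ξ ^ a := by
    simp only [sub_mul, sum_sub_distrib, ← mul_sum, x5, mul_zero, sub_zero, e]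
  have h1 := x6 y hy
  rw [← e, sum_comm] at h1
  have h2 := card_nsmul_le_sum _ _ _ hmin
  rw [h1, card_range, nsmul_eq_mul] at h2
  have hp1 : (1 : ℚ) < p := by exact_mod_cast hp.one_lt
  set S := ∑ a ∈ range p, T ((y a - y a0) * c (y a - y a0)) with hS
  have h3 : S ≤ 2 * T (x * c x) := by nlinarith
  refine ⟨ξ, x1, _, hz, e', h3, fun k hk hk' => ?_⟩
  have hk : ((k : ℚ) + 1) * k < p := by exact_mod_cast hk.resolve_left hpd
  have h4 := x6 _ hz
  rw [← e', M_id h, card_range, ← hS, ← sum_filter_ne_zero] at h4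
  set s := (range p).filter fun a => y a - y a0 ≠ 0
  have h5 := M_cs h s fun a => y a - y a0
  have h6 : ∑ a ∈ s, T ((y a - y a0) * c (y a - y a0)) = S :=
    sum_filter_of_ne fun a _ h e => h (by simp [e])
  have h7 := card_nsmul_le_sum s (fun a => T ((y a - y a0) * c (y a - y a0))) 1 fun a ha =>
    h.big _ (A_mono ((dvd_mul_left d p).trans hd) (hz a)) (mem_filter.1 ha).2
  rw [h6, nsmul_eq_mul, mul_one] at h7
  rw [h6] at h5
  have S0 : 0 ≤ S := le_trans (by positivity) h7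
  have h8 : (p - k) * (2 * S) ≤ (p - 1) * k := by nlinarith
  have k0 : (0 : ℚ) ≤ k := by positivity
  by_contra h9
  have h10 : (0 : ℚ) < p - k := by nlinarith
  nlinarith

lemma crude (h : Cyc n T c) (d : ℕ) : d ∣ n → ∀ B : ℕ, ∀ x ∈ A L d, T (x * c x) ≤ B →
    Sm n (d * d * B) x := by
  induction d using Nat.strong_induction_on with
  | _ d ih =>
  intro hd B x hx hB
  by_cases h1 : d = 1
  · subst h1
    obtain ⟨z, rfl⟩ : ∃ z : ℤ, z • (1 : L) = x := AddSubgroup.mem_closure_singleton.1 (by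
      simpa [A] using hx)
    have e : T (z • (1 : L) * c (z • 1)) = z * z := by
      rw [map_zsmul, map_one, smul_mul_smul_comm, mul_one, map_zsmul, h.one]; simp
    rw [e] at hB
    have h2 : z.natAbs ≤ B := by
      have h3 : z * z ≤ B := by exact_mod_cast hB
      rw [← Int.natAbs_mul_self'] at h3
      exact (Nat.le_mul_self _).trans (by exact_mod_cast h3)
    refine Sm.mono ?_ (show z.natAbs ≤ _ by omega)
    obtain ⟨m, rfl | rfl⟩ := Int.eq_nat_or_neg z
    · simpa using Sm.nat m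
    · simpa using (Sm.nat m).mul h.ev
  obtain ⟨p, hp, d', rfl⟩ := Nat.exists_prime_and_dvd h1
  have d0 : d' ≠ 0 := by rintro rfl; exact h.n0 (by simpa using hd)
  obtain ⟨ξ, x1, y, hy, e, h2, -⟩ := dec2 h hp hd hx
  have := Sm.sum (range p) (x := fun a => y a * ξ ^ a) fun a ha =>
    (ih d' (lt_mul_of_one_lt_left (Nat.pos_of_ne_zero d0) hp.one_lt) ((dvd_mul_left d' p).trans hd)
      (2 * B) _ (hy a) (by
        have := single_le_sum (f := fun a => T (y a * c (y a))) (fun _ _ => h.pos _) ha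
        push_cast; linarith)).mul (by rw [← pow_mul, mul_comm, pow_mul, x1, one_pow])
  rw [← e, card_range] at this
  refine this.mono ?_
  have := Nat.mul_le_mul_right (p * d' * d' * B) hp.two_le
  nlinarith

def Lf : ℕ → ℕ
  | 0 => 0
  | k + 1 => ((k + 2) * (k + 1)).factorial * ((k + 2) * (k + 1)).factorial * (k + 1) + (k + 1) * Lf k

theorem lox (h : Cyc n T c) (k : ℕ) : ∀ d, d ∣ n → ∀ x ∈ A L d, 2 * T (x * c x) ≤ k →
    Sm n (Lf k) x := by
  classical
  induction k with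
  | zero =>
    intro d hd x hx hk
    rw [M_zero h (A_mono hd hx) (by push_cast at hk; linarith)]
    exact Sm.zero _
  | succ k ihk =>
  intro d
  induction d using Nat.strong_induction_on with
  | _ d ih =>
  intro hd x hx hk
  have h0 := h.pos x
  by_cases hR : d ∣ ((k + 2) * (k + 1)).factorial
  · have := Nat.le_of_dvd (Nat.factorial_pos _) hR
    exact (crude h d hd (k + 1) x hx (by linarith)).mono
      ((Nat.mul_le_mul_right _ (Nat.mul_le_mul this this)).trans (Nat.le_add_right _ _))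
  obtain ⟨p, d', hp, rfl, hc⟩ := dich hR
  have d0 : d' ≠ 0 := by rintro rfl; exact h.n0 (by simpa using hd)
  have hd' := (dvd_mul_left d' p).trans hd
  obtain ⟨ξ, x1, y, hy, e, h2, h3⟩ := dec2 h hp hd hx
  have h3 := h3 (k + 1) hc hk
  have x2 : ∀ a, (ξ ^ a) ^ n = 1 := fun a => by rw [← pow_mul, mul_comm, pow_mul, x1, one_pow]
  set s := (range p).filter fun a => y a ≠ 0
  have h4 : x = ∑ a ∈ s, y a * ξ ^ a := by
    rw [e]; symm; exact sum_filter_of_ne fun a _ h e => h (by simp [e])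
  have h6 : ∑ a ∈ s, T (y a * c (y a)) = ∑ a ∈ range p, T (y a * c (y a)) :=
    sum_filter_of_ne fun a _ h e => h (by simp [e])
  have hb : ∀ a ∈ s, 1 ≤ T (y a * c (y a)) := fun a ha =>
    h.big _ (A_mono hd' (hy a)) (mem_filter.1 ha).2
  by_cases h7 : s.card ≤ 1
  · obtain h8 | ⟨a, h8⟩ := (card_le_one_iff_subset_singleton.1 h7 |> fun ⟨a, ha⟩ =>
      (subset_singleton_iff.1 ha).imp id fun h => (⟨a, h⟩ : ∃ a, s = {a}))
    · rw [h4, h8, sum_empty]; exact Sm.zero _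
    · rw [h8, sum_singleton] at h4
      rw [h4] at hk ⊢
      rw [M_root h _ (x2 a)] at hk
      exact (ih d' (lt_mul_of_one_lt_left (Nat.pos_of_ne_zero d0) hp.one_lt) hd' _ (hy a) hk).mul (x2 a)
  · have h8 := card_nsmul_le_sum s _ 1 hb
    rw [h6, nsmul_eq_mul, mul_one] at h8
    have h9 : s.card ≤ k + 1 := by
      have : (s.card : ℚ) ≤ (k + 1 : ℕ) := by linarith
      exact_mod_cast this
    rw [h4]
    refine (Sm.sum s fun a ha => (ihk d' hd' _ (hy a) ?_).mul (x2 a)).mono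
      ((Nat.mul_le_mul_right _ h9).trans (Nat.le_add_left _ _))
    obtain ⟨b, b1, b2⟩ := exists_mem_ne (not_le.1 h7) a
    have := single_le_sum (f := fun a => T (y a * c (y a))) (fun _ _ => h.pos _)
      (mem_erase.2 ⟨b2, b1⟩ : b ∈ s.erase a)
    rw [← h6, ← add_sum_erase _ _ ha] at h3
    have := hb b b1
    push_cast at h3
    linarith

end Pool.Agent.H.MP_4dc1c3_nt
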