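import Pool.Agent.H.MP_4dc1c3_nt.A

set_option autoImplicit false
set_option linter.unusedSectionVars false
open Finset ComplexConjugate IsCyclotomicExtension IsCyclotomicExtension.Rat

namespace Pool.Agent.H.MP_4dc1c3_nt

theorem cyc (n : ℕ) [NeZero n] (hn : Even n) (L : Type*) [Field L] [NumberField L]
    [IsCyclotomicExtension {n} ℚ L] : ∃ (T : L →+ ℚ) (c : L →+* L), Cyc n T c ∧
    (∀ (φ : L →ₐ[ℚ] ℂ) x, φ (c x) = conj (φ x)) ∧ ∀ x, IsIntegral ℤ x → x ∈ A L n := by
  have hζ := zeta_spec n ℚ L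
  let c : L ≃ₐ[ℚ] L := (galEquivZMod n L).symm (-1)
  have c1 : ∀ w : L, w ^ n = 1 → c w = w⁻¹ := fun w hw => by
    rw [galEquivZMod_apply_of_pow_eq n L c hw, MulEquiv.apply_symm_apply]
    refine eq_inv_of_mul_eq_one_left ?_
    rw [← pow_succ]
    refine up ?_ hw
    rw [← ZMod.natCast_eq_zero_iff]
    simp
  have c2 : ∀ (φ : L →ₐ[ℚ] ℂ) x, φ (c x) = conj (φ x) := fun φ x => by
    have : φ.comp c.toAlgHom = (Complex.conjAe.toAlgHom.restrictScalars ℚ).comp φ := by
      refine (hζ.powerBasis ℚ).algHom_ext ?_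
      rw [IsPrimitiveRoot.powerBasis_gen]
      change φ (c _) = conj (φ _)
      rw [c1 _ hζ.pow_eq_one, map_inv₀, Complex.inv_eq_conj]
      exact Complex.norm_eq_one_of_pow_eq_one (n := n) (by rw [← map_pow, hζ.pow_eq_one, map_one])
        (NeZero.ne n)
    exact AlgHom.congr_fun this x
  obtain ⟨D, hD⟩ : ∃ D, D = Module.finrank ℚ L := ⟨_, rfl⟩
  have D0 : (0 : ℝ) < D := by exact_mod_cast hD ▸ Module.finrank_pos
  let T : L →+ ℚ := ((D : ℚ)⁻¹ • Algebra.trace ℚ L).toAddMonoidHom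
  have T1 : ∀ x, T x = (D : ℚ)⁻¹ * Algebra.trace ℚ L x := fun _ => rfl
  have T2 : ∀ (σ : L ≃ₐ[ℚ] L) x, T (σ x) = T x := fun σ x => by
    rw [T1, T1, Algebra.trace_eq_of_algEquiv]
  have T3 : ∀ x, ((T (x * c x) : ℚ) : ℝ) = (D : ℝ)⁻¹ * ∑ φ : L →ₐ[ℚ] ℂ, Complex.normSq (φ x) :=
    fun x => by
    have := trace_eq_sum_embeddings ℂ (K := ℚ) (x := x * c x)
    simp only [map_mul, c2, Complex.mul_conj] at this
    rw [T1]
    push_cast
    congr 1
    apply Complex.ofReal_injective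
    push_cast
    exact this
  have hi : ∀ x ∈ A L n, IsIntegral ℤ x := fun x hx =>
    (AddSubgroup.closure_le (integralClosure ℤ L).toSubring.toAddSubgroup).2
      (fun w hw => IsIntegral.of_pow (NeZero.pos n) (by rw [show w ^ n = 1 from hw]; exact isIntegral_one)) hx
  refine ⟨T, c.toRingEquiv.toRingHom, ⟨NeZero.ne n, hn.neg_one_pow, fun d hd k hk => ?_,
    fun d hd => ?_, c1, fun x => ?_, T2 c, ?_, fun x => ?_, fun x hx h0 => ?_⟩, c2, fun x hx => ?_⟩
  · obtain ⟨u, hu⟩ := ZMod.unitsMap_surjective hd (ZMod.unitOfCoprime k hk)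
    let σ : L ≃ₐ[ℚ] L := (galEquivZMod n L).symm u
    refine ⟨σ.toRingEquiv.toRingHom, T2 σ, fun w hw => ?_⟩
    change σ w = _
    rw [galEquivZMod_apply_of_pow_eq n L σ (up hd hw), MulEquiv.apply_symm_apply]
    refine pow_eq_pow_of_modEq ?_ hw
    rw [← ZMod.natCast_eq_natCast_iff, ← ZMod.coe_unitOfCoprime k hk, ← hu]
    simp [ZMod.unitsMap_def]
  · obtain ⟨e, he⟩ := hd
    exact ⟨_, hζ.pow (NeZero.pos n) (he.trans (mul_comm _ _))⟩
  · change (c * c) x = x
    rw [← map_mul, neg_mul_neg, one_mul, map_one]; rfl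
  · rw [T1, ← map_one (algebraMap ℚ L), Algebra.trace_algebraMap, ← hD]
    have : (D : ℚ) ≠ 0 := by exact_mod_cast D0.ne'
    simp [this]
  · have : (0 : ℝ) ≤ (T (x * c x) : ℚ) := by
      rw [T3]; exact mul_nonneg (by positivity) (sum_nonneg fun _ _ => Complex.normSq_nonneg _)
    exact_mod_cast this
  · have : (1 : ℝ) ≤ (T (x * c x) : ℚ) := by
      rw [T3, le_inv_mul_iff₀ D0, mul_one]
      obtain ⟨z, hz⟩ := IsIntegrallyClosed.isIntegral_iff.1 (Algebra.isIntegral_norm ℚ (hi x hx))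
      have z0 : z ≠ 0 := by
        rintro rfl
        exact h0 (by simpa using hz.symm)
      have e := Algebra.norm_eq_prod_embeddings ℚ ℂ x
      rw [← hz] at e
      have e := congrArg Complex.normSq e
      rw [map_prod] at e
      have p0 : ∀ φ : L →ₐ[ℚ] ℂ, 0 < Complex.normSq (φ x) := fun φ =>
        Complex.normSq_pos.2 (by simpa using h0)
      have h1 : 0 ≤ ∑ φ : L →ₐ[ℚ] ℂ, Real.log (Complex.normSq (φ x)) := by
        rw [← Real.log_prod fun φ _ => (p0 φ).ne', ← e]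
        refine Real.log_nonneg ?_
        have : (1 : ℝ) ≤ z * z := by exact_mod_cast (show 1 ≤ z * z by
          have := mul_self_pos.2 z0; omega)
        simpa using this
      have h2 := sum_le_sum fun (φ : L →ₐ[ℚ] ℂ) (_ : φ ∈ univ) => Real.log_le_sub_one_of_pos (p0 φ)
      rw [sum_sub_distrib, sum_const, card_univ, AlgHom.card, ← hD, nsmul_eq_mul, mul_one] at h2
      linarith
    exact_mod_cast this
  · obtain ⟨⟨y, hy⟩, rfl⟩ := (isIntegralClosure_adjoin_singleton hζ).isIntegral_iff.1 hx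
    change y ∈ A L n
    clear hx
    induction hy using Algebra.adjoin_induction with
    | mem x hx => exact AddSubgroup.subset_closure (by rw [hx]; exact hζ.pow_eq_one)
    | algebraMap r =>
      rw [Algebra.algebraMap_eq_smul_one]
      exact zsmul_mem (show (1 : L) ∈ A L n from AddSubgroup.subset_closure (one_pow n)) _
    | add x y _ _ h1 h2 => exact add_mem h1 h2
    | mul x y _ _ h1 h2 => exact A_mul h1 h2

lemma lin {X : Type*} [Fintype X] [DecidableEq X] {N : ℕ} (S : Set (X ⊕ Fin N → ℤ)) :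
    (∃ k : Fin N → ℤ, k ≠ 0 ∧ Sum.elim (fun _ => 0) k ∈ AddSubgroup.closure S) ∨
    ∃ Φ : X ⊕ Fin N → Fin N → ℚ, (∀ a ∈ S, ∀ i, ∑ v, a v * Φ v i = 0) ∧
      ∀ i j, Φ (.inr j) i = if j = i then 1 else 0 := by
  let V : Submodule ℚ (X ⊕ Fin N → ℚ) := Submodule.span ℚ ((fun a v => (a v : ℚ)) '' S)
  let f : (Fin N → ℚ) →ₗ[ℚ] (X ⊕ Fin N → ℚ) := LinearMap.pi (Sum.elim 0 LinearMap.proj)
  have f1 : ∀ q, f q = Sum.elim (fun _ => 0) q := fun q => by ext (v | v) <;> simp [f]
  by_cases h : LinearMap.ker (V.mkQ ∘ₗ f) = ⊥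
  · right
    obtain ⟨g, hg⟩ := LinearMap.exists_leftInverse_of_injective _ h
    refine ⟨fun v => g (V.mkQ (Pi.single v 1)), fun a ha i => ?_, fun i j => ?_⟩
    · have : V.mkQ (fun v => (a v : ℚ)) = 0 :=
        (Submodule.Quotient.mk_eq_zero V).2 (Submodule.subset_span ⟨a, ha, rfl⟩)
      have := congrArg (fun y => g y i) this
      rw [pi_eq_sum_univ' (fun v => (a v : ℚ))] at this
      simpa only [map_sum, map_smul, map_zero, Finset.sum_apply, Pi.smul_apply, smul_eq_mul,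
        Pi.zero_apply] using this
    · have := congrFun (LinearMap.congr_fun hg (Pi.single j 1)) i
      rw [LinearMap.comp_apply, LinearMap.comp_apply, f1] at this
      dsimp only
      rw [show (Pi.single (Sum.inr j) 1 : X ⊕ Fin N → ℚ) = Sum.elim (fun _ => 0) (Pi.single j 1) by
        ext (v | v) <;> simp [Pi.single_apply], this]
      simp [Pi.single_apply, eq_comm]
  · left
    obtain ⟨q, h1, h2⟩ := (Submodule.ne_bot_iff _).1 h
    have h3 : f q ∈ V := (Submodule.Quotient.mk_eq_zero V).1 h1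
    have h4 : ∀ y ∈ V, ∃ D : ℚ, D ≠ 0 ∧ ∃ b ∈ AddSubgroup.closure S, ∃ D' : ℤ, D = D' ∧
        ∀ v, D * y v = b v := by
      intro y hy
      induction hy using Submodule.span_induction with
      | mem y hy =>
        obtain ⟨a, ha, rfl⟩ := hy
        exact ⟨1, one_ne_zero, a, AddSubgroup.subset_closure ha, 1, by simp, by simp⟩
      | zero => exact ⟨1, one_ne_zero, 0, zero_mem _, 1, by simp, by simp⟩
      | add y z _ _ h1 h2 =>
        obtain ⟨_, a1, b, a2, D, rfl, a3⟩ := h1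
        obtain ⟨_, b1, b', b2, D', rfl, b3⟩ := h2
        refine ⟨D * D', mul_ne_zero a1 b1, D' • b + D • b', add_mem (zsmul_mem a2 _) (zsmul_mem b2 _),
          D * D', by simp, fun v => ?_⟩
        simp only [Pi.add_apply, Pi.smul_apply, smul_eq_mul]
        push_cast
        rw [← a3, ← b3]; ring
      | smul r y _ h1 =>
        obtain ⟨_, a1, b, a2, D, rfl, a3⟩ := h1
        refine ⟨D * r.den, mul_ne_zero a1 (by simp), r.num • b, zsmul_mem a2 _, D * r.den, by simp,
          fun v => ?_⟩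
        simp only [Pi.smul_apply, smul_eq_mul]
        push_cast
        rw [← a3, ← Rat.mul_den_eq_num]; ring
    obtain ⟨D, D0, b, b1, -, -, b2⟩ := h4 _ h3
    rw [f1] at b2
    refine ⟨fun i => b (.inr i), fun e => h2 (funext fun i => ?_), ?_⟩
    · have := b2 (.inr i)
      rw [congrFun e i] at this
      simpa [D0] using this
    · convert b1
      ext (v | v)
      · have := b2 (.inl v)
        simp only [Sum.elim_inl, mul_zero] at this
        exact_mod_cast this
      · rfl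

lemma avoid {N : ℕ} {ι : Type*} [Finite ι] (k : ι → Fin N → ℤ) (hk : ∀ t, k t ≠ 0) :
    ∃ e : Fin N → ℕ, ∀ t, ∑ i, k t i * e i ≠ 0 := by
  have : ∀ t, {x : ℤ | Polynomial.IsRoot (∑ i : Fin N, Polynomial.monomial (i : ℕ) (k t i)) x}.Finite :=
    fun t => Polynomial.finite_setOfPred_isRoot fun h => hk t (funext fun i => by
      have := congrArg (Polynomial.coeff · i) h
      simpa [Polynomial.coeff_monomial, Fin.val_inj] using this)
  obtain ⟨_, ⟨x, rfl⟩, hx⟩ := (Set.infinite_range_of_injective (Nat.cast_injective (R := ℤ))).exists_notMem_finite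
    (Set.finite_iUnion this)
  refine ⟨fun i => x ^ (i : ℕ), fun t h => hx (Set.mem_iUnion.2 ⟨t, ?_⟩)⟩
  simpa [Polynomial.eval_finsetSum] using h

noncomputable def mon {F : Type*} [Field F] {J : Type*} [Fintype J] (w : J → F) (a : J → ℤ) : F :=
  ∏ v, w v ^ a v

section
variable {F : Type*} [Field F] {J : Type*} [Fintype J] [DecidableEq J] {w : J → F}

lemma mon_add (h : ∀ v, w v ≠ 0) (a b : J → ℤ) : mon w (a + b) = mon w a * mon w b := by
  simp [mon, zpow_add₀ (h _), prod_mul_distrib]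

lemma mon_neg (a : J → ℤ) : mon w (-a) = (mon w a)⁻¹ := by simp [mon]

lemma mon_single (v : J) (s : ℤ) : mon w (Pi.single v s) = w v ^ s := by
  rw [mon, prod_eq_single v (fun b _ hb => by simp [hb]) (by simp)]; simp

lemma mon_ne (h : ∀ v, w v ≠ 0) (a : J → ℤ) : mon w a ≠ 0 :=
  prod_ne_zero_iff.2 fun v _ => zpow_ne_zero _ (h v)

end

lemma deform {J W : Type*} [Fintype J] [Fintype W] (a : W → J → ℤ) (e : W → ℂ) (w : J → ℂ) (m : ℕ)
    (h : ∀ τ0, ∑ τ ∈ univ.filter fun τ => mon w (a τ) ^ m = mon w (a τ0) ^ m, e τ * mon w (a τ) = 0)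
    (θ : J → ℝ)
    (hθ : ∀ τ τ', mon w (a τ) ^ m = mon w (a τ') ^ m → ∑ v, a τ v * θ v = ∑ v, a τ' v * θ v) :
    ∑ τ, e τ * mon (fun v => w v * Complex.exp (θ v * Complex.I)) (a τ) = 0 := by
  have h1 : ∀ τ, mon (fun v => w v * Complex.exp (θ v * Complex.I)) (a τ) =
      mon w (a τ) * Complex.exp ((∑ v, a τ v * θ v : ℝ) * Complex.I) := fun τ => by
    simp only [mon, mul_zpow, prod_mul_distrib, ← Complex.exp_int_mul, ← Complex.exp_sum]
    push_cast
    simp only [sum_mul, mul_assoc]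
  rw [← sum_fiberwise_of_maps_to (g := fun τ => mon w (a τ) ^ m)
    fun τ _ => mem_image_of_mem (fun τ => mon w (a τ) ^ m) (mem_univ τ)]
  refine sum_eq_zero fun v hv => ?_
  obtain ⟨τ0, -, rfl⟩ := mem_image.1 hv
  rw [sum_congr rfl fun τ hτ => by rw [h1, hθ τ τ0 (mem_filter.1 hτ).2, ← mul_assoc], ← sum_mul, h,
    zero_mul]

lemma hess {n l N : ℕ} (hN : 2 * n < N) (c : Fin n → Fin l → ℂ)
    (lam : Fin n → Fin l → (Fin N → ℝ) →ₗ[ℝ] ℝ)
    (h : ∀ u : Fin N → ℝ, ∑ j, Complex.normSq (∑ r, c j r * Complex.exp (lam j r u * Complex.I)) =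
      ∑ i, (2 * Real.sin (u i)) ^ 2) : False := by
  let Λ : (Fin N → ℝ) →ₗ[ℝ] (Fin n → ℂ) :=
    LinearMap.pi fun j => ∑ r, (lam j r).smulRight (c j r * Complex.I)
  obtain ⟨u, h1, h2⟩ := (Submodule.ne_bot_iff _).1 (LinearMap.ker_ne_bot_of_finrank_lt (f := Λ) (by
    simp [Module.finrank_pi_fintype]; omega))
  obtain ⟨i, hi⟩ := Function.ne_iff.1 h2
  let F : Fin n → ℝ → ℂ := fun j s => ∑ r, c j r * Complex.exp (lam j r (s • u) * Complex.I)
  have F0 : ∀ j, F j 0 = 0 := fun j => by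
    have := h ((0 : ℝ) • u)
    rw [show ∑ i, (2 * Real.sin (((0 : ℝ) • u) i)) ^ 2 = 0 by simp,
      sum_eq_zero_iff_of_nonneg fun _ _ => Complex.normSq_nonneg _] at this
    exact Complex.normSq_eq_zero.1 (this j (mem_univ j))
  have F1 : ∀ j, HasDerivAt (F j) 0 0 := fun j => by
    have e : ∑ r, c j r * (Complex.exp ((0 : ℝ) * lam j r u * Complex.I) * (lam j r u * Complex.I)) = 0 := by
      have := congrFun (LinearMap.mem_ker.1 h1) j
      simp only [Λ, LinearMap.pi_apply, LinearMap.sum_apply, LinearMap.smulRight_apply,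
        Pi.zero_apply] at this
      rw [← this]
      exact sum_congr rfl fun r _ => by simp; ring
    rw [← e]
    simp only [F, map_smul, smul_eq_mul, Complex.ofReal_mul]
    refine HasDerivAt.fun_sum fun r _ => HasDerivAt.const_mul _ (HasDerivAt.cexp ?_)
    simpa using ((Complex.ofRealCLM.hasDerivAt (x := (0 : ℝ))).mul_const (lam j r u : ℂ)).mul_const
      Complex.I
  have G1 : HasDerivAt (fun s : ℝ => 2 * Real.sin (s * u i)) (2 * u i) 0 := by
    simpa using (((hasDerivAt_id (0 : ℝ)).mul_const (u i)).sin).const_mul 2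
  have t1 := (hasDerivAt_iff_tendsto_slope.1 G1).pow 2
  have t2 := tendsto_finsetSum univ fun j _ =>
    (Complex.continuous_normSq.tendsto _).comp (hasDerivAt_iff_tendsto_slope.1 (F1 j))
  have := le_of_tendsto_of_tendsto' t1 t2 fun s => by
    simp only [slope, Function.comp, F0, vsub_eq_sub, sub_zero, zero_mul, Real.sin_zero, mul_zero,
      smul_eq_mul, Complex.real_smul, map_mul, Complex.normSq_ofReal, ← mul_sum, F, h]
    rw [mul_pow, pow_two]
    refine mul_le_mul_of_nonneg_left ?_ (mul_self_nonneg _)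
    exact single_le_sum (f := fun i => (2 * Real.sin ((s • u) i)) ^ 2) (fun _ _ => sq_nonneg _)
      (mem_univ i)
  have hi' : u i ≠ 0 := hi
  have : 0 < (2 * u i) ^ 2 := by positivity
  simp_all

abbrev JJ (m l N : ℕ) := (Fin m × Fin l) ⊕ Fin N
abbrev WW (m l N : ℕ) := (Fin m × Fin l × Fin l) ⊕ (Fin N × Bool × Bool)

def sg (b : Bool) : ℤ := if b then 1 else -1

def ex {m l N : ℕ} : WW m l N → JJ m l N → ℤ :=
  Sum.elim (fun t => Pi.single (.inl (t.1, t.2.1)) 1 + Pi.single (.inl (t.1, t.2.2)) (-1))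
    fun t => Pi.single (.inr t.1) (sg t.2.1) + Pi.single (.inr t.1) (sg t.2.2)

def cf {m l N : ℕ} (ε : Fin m → Fin l → ℤ) : WW m l N → ℤ :=
  Sum.elim (fun t => ε t.1 t.2.1 * ε t.1 t.2.2) fun _ => -1

lemma key {F : Type*} [Field F] {m l N : ℕ} (ε : Fin m → Fin l → ℤ) {w : JJ m l N → F}
    (h : ∀ v, w v ≠ 0) : ∑ τ, cf ε τ * mon w (ex τ) =
      ∑ j, (∑ r, ε j r * w (.inl (j, r))) * (∑ r, ε j r * (w (.inl (j, r)))⁻¹) -
        ∑ i, (w (.inr i) + (w (.inr i))⁻¹) ^ 2 := by
  rw [Fintype.sum_sum_type, sub_eq_add_neg, ← sum_neg_distrib]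
  simp only [cf, ex, Sum.elim_inl, Sum.elim_inr, mon_add h, mon_single, Fintype.sum_prod_type,
    sum_mul_sum]
  congr 1
  · refine sum_congr rfl fun j _ => sum_congr rfl fun r _ => sum_congr rfl fun r' _ => ?_
    simp; ring
  · refine sum_congr rfl fun i _ => ?_
    simp [sg]; ring

theorem torus {m l N : ℕ} (hN : 2 * m < N) (ε : Fin m → Fin l → ℤ) (w : JJ m l N → ℂ)
    (hw : ∀ v, ‖w v‖ = 1) (M : ℕ)
    (h : ∀ τ0, ∑ τ ∈ univ.filter fun τ => mon w (ex τ) ^ M = mon w (ex τ0) ^ M,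
      cf ε τ * mon w (ex τ) = 0) (Φ : JJ m l N → Fin N → ℚ)
    (h1 : ∀ τ τ', mon w (ex τ) ^ M = mon w (ex τ') ^ M → ∀ i, ∑ v, (ex τ - ex τ') v * Φ v i = 0)
    (h2 : ∀ i j, Φ (.inr j) i = if j = i then 1 else 0) : False := by
  let θ : JJ m l N → (Fin N → ℝ) →ₗ[ℝ] ℝ := fun v => ∑ i, (Φ v i : ℝ) • LinearMap.proj i
  have θ1 : ∀ v t, θ v t = ∑ i, Φ v i * t i := fun v t => by simp [θ]
  have θ2 : ∀ i t, θ (.inr i) t = t i := fun i t => by
    rw [θ1, sum_eq_single i (fun j _ hj => by simp [h2, hj.symm]) (by simp)]; simp [h2]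
  let t0 : Fin N → ℝ := fun i => Real.pi / 2 - (w (.inr i)).arg
  refine hess hN (fun j r => ε j r * (w (.inl (j, r)) * Complex.exp (θ (.inl (j, r)) t0 * Complex.I)))
    (fun j r => θ (.inl (j, r))) fun u => ?_
  have h3 := deform ex (fun τ => cf ε τ) w M h (fun v => θ v (t0 + u)) fun τ τ' e => by
    rw [← sub_eq_zero, ← sum_sub_distrib]
    simp only [θ1, mul_sum, ← sum_sub_distrib]
    rw [sum_comm]
    refine sum_eq_zero fun i _ => ?_
    have := congrArg (fun q : ℚ => (q : ℝ) * (t0 + u) i) (h1 τ τ' e i)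
    simp only [Pi.sub_apply] at this
    push_cast at this
    rw [zero_mul, sum_mul] at this
    rw [← this]
    exact sum_congr rfl fun v _ => by ring
  have h4 : ∀ v, ‖w v * Complex.exp (θ v (t0 + u) * Complex.I)‖ = 1 := fun v => by
    rw [norm_mul, hw, Complex.norm_exp_ofReal_mul_I, one_mul]
  rw [key ε fun v e => by have := h4 v; rw [e] at this; simp at this, sub_eq_zero] at h3
  apply Complex.ofReal_injective
  push_cast
  convert h3 using 2 with j _ i _
  · simp only [Complex.inv_eq_conj (h4 _)]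
    rw [← Complex.mul_conj]
    simp only [map_add, Complex.ofReal_add, add_mul, Complex.exp_add, mul_assoc, map_sum, map_mul,
      map_intCast]
  · have : w (.inr i) * Complex.exp (θ (.inr i) (t0 + u) * Complex.I) =
        Complex.I * Complex.exp (u i * Complex.I) := by
      nth_rewrite 1 [← Complex.norm_mul_exp_arg_mul_I (w (.inr i))]
      rw [hw, θ2, ← Complex.exp_pi_div_two_mul_I, Complex.ofReal_one, one_mul, ← Complex.exp_add,
        ← Complex.exp_add]
      congr 1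
      simp only [t0, Pi.add_apply]
      push_cast
      rw [Complex.exp_pi_div_two_mul_I]; ring
    rw [this, mul_inv, ← Complex.exp_neg, Complex.inv_I, Complex.sin]
    rw [neg_mul, neg_mul]; ring

end Pool.Agent.H.MP_4dc1c3_nt
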