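import Pool.Agent.H.MP_4dc1c3_nt.B

set_option autoImplicit false
set_option linter.unusedSectionVars false
open Finset ComplexConjugate

namespace Pool.Agent.H.MP_4dc1c3_nt

theorem lift (n : ℕ) [NeZero n] (hn : Even n) {m N : ℕ} (z : Fin N → ℂ) (hz : ∀ i, z i ^ n = 1)
    (g : Fin m → ℂ) (g1 : ∀ j, IsIntegral ℤ (g j)) (g2 : ∀ j, conj (g j) = g j)
    (g3 : ∀ j, ∀ F : IntermediateField ℚ ℂ, (∀ w, w ^ n = 1 → w ∈ F) → g j ∈ F)
    (e : ∑ i, (z i + (z i)⁻¹) ^ 2 = ∑ j, g j ^ 2) :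
    ∃ (ε : Fin m → Fin (Lf (8 * N)) → ℤ) (w : JJ m (Lf (8 * N)) N → ℂ), (∀ v, ‖w v‖ = 1) ∧
      (∀ i, w (.inr i) = z i) ∧ ∀ τ0, ∑ τ ∈ univ.filter fun τ =>
        mon w (ex τ) ^ (Fintype.card (WW m (Lf (8 * N)) N)).factorial =
          mon w (ex τ0) ^ (Fintype.card (WW m (Lf (8 * N)) N)).factorial,
        cf ε τ * mon w (ex τ) = 0 := by
  classical
  let L := CyclotomicField n ℚ
  have : IsCyclotomicExtension {n} ℚ L := CyclotomicField.isCyclotomicExtension n ℚ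
  obtain ⟨T, c, h, hc, hA⟩ := cyc n hn L
  let φ : L →ₐ[ℚ] ℂ := IsAlgClosed.lift
  have hφ : Function.Injective φ := φ.toRingHom.injective
  have h1 : ∀ w : ℂ, w ^ n = 1 → ∃ y : L, y ^ n = 1 ∧ φ y = w := fun w hw => by
    have hζ := IsCyclotomicExtension.zeta_spec n ℚ L
    obtain ⟨i, -, rfl⟩ := (hζ.map_of_injective hφ).eq_pow_of_pow_eq_one hw
    exact ⟨_ ^ i, by rw [← pow_mul, mul_comm, pow_mul, hζ.pow_eq_one, one_pow], map_pow _ _ _⟩
  choose y y1 y2 using fun i => h1 _ (hz i)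
  choose b hb using fun j => g3 j φ.fieldRange fun w hw => (h1 w hw).imp fun _ h => h.2
  have hb : ∀ j, φ (b j) = g j := hb
  have b1 : ∀ j, c (b j) = b j := fun j => hφ (by rw [hc, hb, g2])
  have e1 : ∑ i, (y i + (y i)⁻¹) ^ 2 = ∑ j, b j * c (b j) := hφ (by
    simpa [y2, hb, b1, ← pow_two] using e)
  have y0 : ∀ {w : L}, w ^ n = 1 → w ≠ 0 := fun hw e => by simp [e, h.n0] at hw
  have e2 : ∑ j, T (b j * c (b j)) ≤ 4 * N := by
    rw [← map_sum, ← e1, map_sum]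
    refine (sum_le_card_nsmul _ _ 4 fun i _ => ?_).trans (by simp [mul_comm])
    have h2 := M_cs h univ (fun s : Bool => if s then y i else (y i)⁻¹)
    have h3 := M_root h 1 (y1 i)
    have h4 := M_root h 1 (w := (y i)⁻¹) (by rw [inv_pow, y1, inv_one])
    simp only [one_mul, map_one, h.one] at h3 h4
    simp only [Fintype.sum_bool, if_true, Bool.false_eq_true, if_false, h3, h4, card_univ,
      Fintype.card_bool] at h2
    rw [map_add c, map_inv₀, h.conj _ (y1 i), inv_inv, add_comm (y i)⁻¹, ← pow_two] at h2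
    exact h2.trans (by norm_num)
  choose ε η η1 η2 using fun j => (lox h (8 * N) n dvd_rfl (b j)
    (hA _ ((isIntegral_algHom_iff (φ.restrictScalars ℤ) hφ).1 (by simpa [hb] using g1 j))) (by
      have := single_le_sum (f := fun j => T (b j * c (b j))) (fun _ _ => h.pos _) (mem_univ j)
      push_cast; linarith)).out
  let w : JJ m (Lf (8 * N)) N → L := Sum.elim (fun t => η t.1 t.2) y
  have w1 : ∀ v, w v ^ n = 1 := by rintro (v | v); exacts [η1 _ _, y1 _]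
  have w2 : ∀ a, φ (mon w a) = mon (fun v => φ (w v)) a := fun a => by simp [mon]
  refine ⟨ε, fun v => φ (w v), fun v => Complex.norm_eq_one_of_pow_eq_one (n := n)
    (by rw [← map_pow, w1, map_one]) h.n0, y2, fun τ0 => ?_⟩
  have := mann h (Fintype.card (WW m (Lf (8 * N)) N)) (cf ε) (fun τ => mon w (ex τ))
    (mon w (ex τ0) ^ (Fintype.card (WW m (Lf (8 * N)) N)).factorial) n dvd_rfl univ le_rfl 1 one_ne_zero
    (fun τ _ => ⟨_, by
      rw [mon, ← prod_pow]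
      exact prod_eq_one fun v _ => by rw [← zpow_natCast, ← zpow_mul, mul_comm, zpow_mul,
        zpow_natCast, w1, one_zpow], (one_mul _).symm⟩) (by
      rw [key ε fun v => y0 (w1 v), sub_eq_zero]
      refine Eq.trans (sum_congr rfl fun j _ => ?_) e1.symm
      rw [η2 j, map_sum]
      congr 1
      exact sum_congr rfl fun r _ => by rw [map_mul, map_intCast, h.conj _ (η1 j r)]; rfl)
  have := congrArg φ this
  simp only [map_sum, map_mul, map_intCast, map_zero, w2] at this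
  rw [← this]
  refine sum_congr (filter_congr fun τ _ => ?_) fun _ _ => rfl
  rw [← w2, ← w2, ← map_pow, ← map_pow, hφ.eq_iff]

lemma cheb (K : IntermediateField ℚ ℂ) {ζ : ℂ} (h0 : ζ ≠ 0) (h : ζ + ζ⁻¹ ∈ K) (e : ℕ) :
    ζ ^ e + (ζ ^ e)⁻¹ ∈ K := by
  induction e using Nat.twoStepInduction with
  | zero => simpa using add_mem K.one_mem K.one_mem
  | one => simpa
  | more e h1 h2 =>
    convert sub_mem (mul_mem h h2) h1 using 1
    field_simp; ring

theorem main (S : Set ℕ) (hS : S.Infinite) (hp : ∀ n ∈ S, 0 < n) (K : IntermediateField ℚ ℂ)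
    (hK : K = IntermediateField.adjoin ℚ
      {z : ℂ | ∃ n ∈ S, ∃ ζ : ℂ, IsPrimitiveRoot ζ n ∧ z = ζ + ζ⁻¹}) (m : ℕ) :
    ∃ f : Fin (2 * m + 1) → ℂ, (∀ i, f i ∈ K ∧ IsIntegral ℤ (f i)) ∧
      ¬ ∃ g : Fin m → ℂ, (∀ i, g i ∈ K ∧ IsIntegral ℤ (g i)) ∧ ∑ i, f i ^ 2 = ∑ i, g i ^ 2 := by
  obtain ⟨N, hN⟩ : ∃ N, N = 2 * m + 1 := ⟨_, rfl⟩
  rw [← hN]
  obtain ⟨M, hM⟩ : ∃ M, M = (Fintype.card (WW m (Lf (8 * N)) N)).factorial := ⟨_, rfl⟩
  let SS : Set (WW m (Lf (8 * N)) N × WW m (Lf (8 * N)) N) → Set (JJ m (Lf (8 * N)) N → ℤ) :=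
    fun P => (fun p => ex p.1 - ex p.2) '' P
  have := fun t : {P // ∃ k : Fin N → ℤ, k ≠ 0 ∧
    Sum.elim (fun _ => 0) k ∈ AddSubgroup.closure (SS P)} => t.2
  choose k k1 k2 using this
  obtain ⟨e, he⟩ := avoid k k1
  obtain ⟨B, hB⟩ := (Set.finite_range fun t => (M * ∑ i, k t i * e i).natAbs).bddAbove
  obtain ⟨s, s1, s2⟩ := hS.exists_gt B
  have hζ := Complex.isPrimitiveRoot_exp s (hp s s1).ne'
  generalize Complex.exp (2 * Real.pi * Complex.I / s) = ζ at hζ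
  have z0 := hζ.ne_zero (hp s s1).ne'
  have zi := (hζ.isIntegral (hp s s1))
  have zi' := (hζ.inv.isIntegral (hp s s1))
  refine ⟨fun i => ζ ^ e i + (ζ ^ e i)⁻¹, fun i => ⟨cheb K z0 (hK ▸ IntermediateField.subset_adjoin _ _
    ⟨s, s1, ζ, hζ, rfl⟩) _, (zi.pow _).add (inv_pow ζ _ ▸ zi'.pow _)⟩, ?_⟩
  rintro ⟨g, hg, hfg⟩
  have hk : ∀ x ∈ K, conj x = x ∧ ∃ d, 0 < d ∧ ∀ F : IntermediateField ℚ ℂ,
      (∀ w, w ^ d = 1 → w ∈ F) → x ∈ F := by
    intro x hx
    rw [hK] at hx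
    induction hx using IntermediateField.adjoin_induction with
    | mem x hx =>
      obtain ⟨d, d1, ξ, d2, rfl⟩ := hx
      refine ⟨?_, d, hp d d1, fun F hF => add_mem (hF _ d2.pow_eq_one) (inv_mem (hF _ d2.pow_eq_one))⟩
      rw [Complex.inv_eq_conj (d2.norm'_eq_one (hp d d1).ne')]; simp [add_comm]
    | algebraMap q => exact ⟨by simp, 1, one_pos, fun F _ => F.algebraMap_mem q⟩
    | add x y _ _ h1 h2 =>
      obtain ⟨a1, d, a2, a3⟩ := h1
      obtain ⟨b1, d', b2, b3⟩ := h2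
      exact ⟨by rw [map_add, a1, b1], d * d', mul_pos a2 b2, fun F hF => add_mem
        (a3 F fun w hw => hF w (up (dvd_mul_right _ _) hw)) (b3 F fun w hw => hF w (up (dvd_mul_left _ _) hw))⟩
    | inv x _ h1 =>
      obtain ⟨a1, d, a2, a3⟩ := h1
      exact ⟨by rw [map_inv₀, a1], d, a2, fun F hF => inv_mem (a3 F hF)⟩
    | mul x y _ _ h1 h2 =>
      obtain ⟨a1, d, a2, a3⟩ := h1
      obtain ⟨b1, d', b2, b3⟩ := h2
      exact ⟨by rw [map_mul, a1, b1], d * d', mul_pos a2 b2, fun F hF => mul_mem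
        (a3 F fun w hw => hF w (up (dvd_mul_right _ _) hw)) (b3 F fun w hw => hF w (up (dvd_mul_left _ _) hw))⟩
  choose d d1 d2 using fun j => (hk _ (hg j).1).2
  have : NeZero (2 * s * ∏ j, d j) :=
    ⟨mul_ne_zero (mul_ne_zero two_ne_zero (hp s s1).ne') (prod_pos fun j _ => d1 j).ne'⟩
  obtain ⟨ε, w, w1, w2, w3⟩ := lift (2 * s * ∏ j, d j) ((even_two.mul_right _).mul_right _)
    (fun i => ζ ^ e i) (fun i => up ((dvd_mul_left s 2).mul_right _) (by
      rw [← pow_mul, mul_comm, pow_mul, hζ.pow_eq_one, one_pow])) g (fun j => (hg j).2)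
    (fun j => (hk _ (hg j).1).1) (fun j F hF => d2 j F fun w hw => hF w
      (up ((dvd_prod_of_mem _ (mem_univ j)).mul_left _) hw)) hfg
  rw [← hM] at w3
  have w0 : ∀ v, w v ≠ 0 := fun v e => by simpa [e] using w1 v
  rcases lin (SS {p | mon w (ex p.1) ^ M = mon w (ex p.2) ^ M}) with h | ⟨Φ, h1, h2⟩
  · have h1 : ∀ a ∈ AddSubgroup.closure (SS {p | mon w (ex p.1) ^ M = mon w (ex p.2) ^ M}),
        mon w a ^ M = 1 := by
      intro a ha
      induction ha using AddSubgroup.closure_induction with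
      | mem a ha =>
        obtain ⟨p, hp, rfl⟩ := ha
        dsimp only
        rw [sub_eq_add_neg, mon_add w0, mon_neg, mul_pow, show _ = _ from hp, inv_pow,
          mul_inv_cancel₀ (pow_ne_zero _ (mon_ne w0 _))]
      | zero => simp [mon]
      | add a b _ _ h1 h2 => rw [mon_add w0, mul_pow, h1, h2, mul_one]
      | neg a _ h1 => rw [mon_neg, inv_pow, h1, inv_one]
    have h2 := h1 _ (k2 ⟨_, h⟩)
    have h3 := he ⟨_, h⟩
    have h4 := hB ⟨⟨_, h⟩, rfl⟩
    dsimp only at h4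
    generalize k ⟨_, h⟩ = κ at h2 h3 h4
    have h5 : ζ ^ (M * ∑ i, κ i * e i) = 1 := by
      rw [← h2, mul_comm, zpow_mul, zpow_natCast, mon, Fintype.prod_sum_type]
      simp only [Sum.elim_inl, Sum.elim_inr, zpow_zero, prod_const_one, one_mul, w2]
      congr 1
      induction (univ : Finset (Fin N)) using Finset.induction_on with
      | empty => simp
      | insert a t ha ih =>
        rw [sum_insert ha, prod_insert ha, zpow_add₀ z0, ih, mul_comm (κ a), zpow_mul, zpow_natCast]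
    have h6 := Int.natAbs_le_of_dvd_ne_zero ((hζ.zpow_eq_one_iff_dvd _).1 h5)
      (mul_ne_zero (by rw [hM]; exact_mod_cast Nat.factorial_ne_zero _) h3)
    simp only [Int.natAbs_natCast] at h6
    omega
  · exact torus (by omega) ε w w1 M w3 Φ (fun τ τ' e => h1 _ ⟨(τ, τ'), e, rfl⟩) h2

end Pool.Agent.H.MP_4dc1c3_nt
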